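import Pool.Agent.MP_244be3_lc.Equiv

set_option autoImplicit false

namespace Pool.Agent.Results.MP_244be3_lc.BooleanForm

open Finset Filter Pool.Agent.MP_244be3_lc

/-- The question for networks with real inputs (left side, word for word the frozen statement) is
equivalent to a question about Boolean functions (right side): is there a family of functions on
`{0,1}^n`, computed by threshold circuits of size `s`, that are linear combinations of linear
threshold functions only with exponentially many terms? -/
theorem result :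
    (∃ d : ℕ → ℕ, ∃ f : (n : ℕ) → (Fin (d n) → ℝ) → ℝ, ∃ k : ℕ → ℕ, ∃ s : ℕ → ℕ,
      ∃ c : ℝ, 0 < c ∧ ∃ ε : ℝ, 0 < ε ∧
      Filter.Tendsto s Filter.atTop Filter.atTop ∧
      ∀ n : ℕ,
        (∃ w : ℕ → ℕ, w 0 = d n ∧ (∑ i ∈ Finset.Icc 1 (k n), w i) ≤ s n ∧
          ∃ W : ℕ → ℕ → ℕ → ℝ, ∃ B : ℕ → ℕ → ℝ, ∃ a : ℕ → ℝ, ∃ a0 : ℝ,
            ∀ x : Fin (d n) → ℝ, ∀ v : ℕ → ℕ → ℝ,
              (∀ j : Fin (d n), v 0 (j : ℕ) = x j) →
              (∀ i < k n, ∀ j < w (i + 1),
                v (i + 1) j =
                  if 0 < (∑ l ∈ Finset.range (w i), W i j l * v i l) + B i j then 1 else 0) →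
              f n x = a0 + ∑ j ∈ Finset.range (w (k n)), a j * v (k n) j) ∧
        ∀ k' : ℕ, k' ≤ 2 → ∀ m : ℕ,
          (∃ w : ℕ → ℕ, w 0 = d n ∧ (∑ i ∈ Finset.Icc 1 k', w i) ≤ m ∧
            ∃ W : ℕ → ℕ → ℕ → ℝ, ∃ B : ℕ → ℕ → ℝ, ∃ a : ℕ → ℝ, ∃ a0 : ℝ,
              ∀ x : Fin (d n) → ℝ, ∀ v : ℕ → ℕ → ℝ,
                (∀ j : Fin (d n), v 0 (j : ℕ) = x j) →
                (∀ i < k', ∀ j < w (i + 1),
                  v (i + 1) j =
                    if 0 < (∑ l ∈ Finset.range (w i), W i j l * v i l) + B i j then 1 else 0) →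
                f n x = a0 + ∑ j ∈ Finset.range (w k'), a j * v k' j) →
          Real.exp (c * ((s n : ℝ) ^ ε)) ≤ (m : ℝ)) ↔
    ∃ n : ℕ → ℕ, ∃ F : (m : ℕ) → (Fin (n m) → Bool) → ℝ, ∃ s : ℕ → ℕ, ∃ c : ℝ, 0 < c ∧
      ∃ ε : ℝ, 0 < ε ∧ Filter.Tendsto s Filter.atTop Filter.atTop ∧
      ∀ m : ℕ, n m ≤ s m ∧
        (∃ N : Net (n m), N.size ≤ s m ∧
          ∀ u : Fin (n m) → Bool, N.eval (fun i => if u i = true then 1 else 0) = F m u) ∧
        ∀ q : ℕ,
          (∃ (θ : ℕ → Fin (n m) → ℝ) (b a : ℕ → ℝ) (a0 : ℝ), ∀ u : Fin (n m) → Bool,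
            F m u = a0 + ∑ j ∈ range q,
              a j * (if 0 < (∑ i, θ j i * (if u i = true then 1 else 0)) + b j then 1 else 0)) →
          Real.exp (c * ((s m : ℝ) ^ ε)) ≤ (q : ℝ) := by
  constructor
  · rintro ⟨d, f, k, s, c, hc, ε, hε, hs, h⟩
    -- the networks
    have hnet : ∀ n, ∃ N : Net (d n), 1 ≤ N.depth ∧ N.size ≤ s n ∧ ∀ x, N.eval x = f n x := by
      intro n
      obtain ⟨⟨w, hw, hsz, W, B, a, a0, hf⟩, hlow⟩ := h n
      refine ⟨⟨k n, w, W, B, a, a0, hw⟩, ?_, hsz, (frozen_iff hw W B a a0 (f n)).1 hf⟩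
      change 1 ≤ k n
      by_contra hk
      have hk0 : k n = 0 := by omega
      rw [hk0] at hf
      have h1 := hlow 0 (by omega) 0 ⟨w, hw, by simp, W, B, a, a0, hf⟩
      have h2 := Real.exp_pos (c * ((s n : ℝ) ^ ε))
      rw [Nat.cast_zero] at h1
      linarith
    choose N hN1 hN2 hN3 using hnet
    -- large indices
    have hgr := hs.eventually (growth c ε hc hε)
    obtain ⟨M, hM⟩ := Filter.eventually_atTop.1 hgr
    refine ⟨fun m => (N (m + M)).width 1,
      fun m u => (tail (N (m + M))).eval (fun i => if u i = true then 1 else 0),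
      fun m => s (m + M), c / 2, by positivity, ε, hε,
      (tendsto_add_atTop_iff_nat M).2 hs, ?_⟩
    intro m
    have hts := tail_size (N (m + M)) (hN1 _)
    refine ⟨?_, ⟨tail (N (m + M)), ?_, fun u => rfl⟩, ?_⟩
    · have := hN2 (m + M)
      change (N (m + M)).width 1 ≤ s (m + M)
      omega
    · have := hN2 (m + M)
      change (tail (N (m + M))).size ≤ s (m + M)
      omega
    · rintro q ⟨θ, b, a, a0, hF⟩
      -- two layers for the real function
      have hlow := (h (m + M)).2
      set T : Net ((N (m + M)).width 1) := thrNet q θ b a a0 with hT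
      set P : Net (d (m + M)) := prepend (fun j l => (N (m + M)).W 0 j l) ((N (m + M)).B 0) T
        with hP
      have hPeval : ∀ x, P.eval x = f (m + M) x := by
        intro x
        rw [← hN3, ← tail_eval _ (hN1 _) x]
        set y : Fin ((N (m + M)).width 1) → ℝ := fun l => (N (m + M)).act x 1 l with hy
        have e1 : P.eval x = T.eval y := by
          apply prepend_eval
          intro j
          rw [hy]
          exact act_one _ x j
        rw [e1, hT, thrNet_eval]
        have e2 : y = fun i => if (decide (y i = 1)) = true then 1 else 0 := by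
          funext i
          have h01 : y i = 0 ∨ y i = 1 := by
            have : y i = (N (m + M)).act x 1 i := rfl
            rw [this, act_one]
            split_ifs
            · right; rfl
            · left; rfl
          rcases h01 with h0 | h1
          · rw [if_neg, h0]
            rw [decide_eq_true_iff, h0]
            norm_num
          · rw [if_pos, h1]
            rw [decide_eq_true_iff]
            exact h1
        have e3 : (tail (N (m + M))).eval (fun i => if (decide (y i = 1)) = true then 1 else 0) =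
            a0 + ∑ j ∈ range q, a j * (if 0 < (∑ i, θ j i *
              (if (decide (y i = 1)) = true then 1 else 0)) + b j then 1 else 0) :=
          hF (fun i => decide (y i = 1))
        rw [← e2] at e3
        rw [e3]
        congr 1
        apply Finset.sum_congr rfl
        intro j _
        have e4 : ∀ i, (if (decide (y i = 1)) = true then (1 : ℝ) else 0) = y i :=
          fun i => (congrFun e2 i).symm
        simp_rw [e4]
      have hPsize : P.size = (N (m + M)).width 1 + q := by
        rw [hP, prepend_size, hT, thrNet_size]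
      have h2 := hlow 2 le_rfl P.size ⟨P.width, P.width_zero, le_rfl, P.W, P.B, P.a, P.a0,
        (frozen_iff P.width_zero P.W P.B P.a P.a0 (f (m + M))).2 (fun x => hPeval x)⟩
      rw [hPsize] at h2
      have h3 := hM (m + M) (by omega)
      have h4 : ((N (m + M)).width 1 : ℝ) ≤ s (m + M) := by
        have := hN2 (m + M)
        have : (N (m + M)).width 1 ≤ s (m + M) := by omega
        exact_mod_cast this
      push_cast at h2
      linarith
  · rintro ⟨n, F, s, c, hc, ε, hε, hs, h⟩
    choose hn hnet hlow using h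
    choose N hN1 hN2 using hnet
    let P : (m : ℕ) → Net (n m) := fun m =>
      prepend (fun j l => if l = j then 1 else 0) (fun _ => 0) (N m)
    have hP : ∀ m (x : Fin (n m) → ℝ), (P m).eval x = F m (fun i => decide (0 < x i)) := by
      intro m x
      rw [← hN2]
      apply prepend_eval
      intro j
      have : ∑ l : Fin (n m), (if (l : ℕ) = (j : ℕ) then (1 : ℝ) else 0) * x l = x j := by
        rw [Finset.sum_eq_single j]
        · simp
        · intro l _ hl
          rw [if_neg (fun h => hl (Fin.ext h)), zero_mul]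
        · intro h; simp at h
      rw [this, add_zero]
      simp
    have hPs : ∀ m, (P m).size = n m + (N m).size := fun m => prepend_size _ _ _
    refine ⟨n, fun m x => F m (fun i => decide (0 < x i)), fun m => (P m).depth,
      fun m => 2 * s m, c / 2 ^ ε, by positivity, ε, hε, ?_, ?_⟩
    · exact Filter.tendsto_atTop_mono (fun m => by omega) hs
    · intro m
      refine ⟨⟨(P m).width, (P m).width_zero, ?_, (P m).W, (P m).B, (P m).a, (P m).a0,
        (frozen_iff (P m).width_zero _ _ _ _ _).2 (fun x => hP m x)⟩, ?_⟩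
      · have h1 := hPs m
        have h2 := hn m
        have h3 := hN1 m
        change (P m).size ≤ 2 * s m
        omega
      · rintro k' hk' q ⟨w, hw, hsz, W, B, a, a0, hf⟩
        have h1 := (frozen_iff hw W B a a0 _).1 hf
        obtain ⟨q', hq', hs'⟩ := sumThr_of_net (⟨k', w, W, B, a, a0, hw⟩ : Net (n m)) hk' (F m) h1
        have h2 := hlow m q' hs'
        have h3 : (q' : ℝ) ≤ q := by
          have : q' ≤ q := hq'.trans hsz
          exact_mod_cast this
        have h4 : c / 2 ^ ε * ((2 * s m : ℕ) : ℝ) ^ ε = c * (s m : ℝ) ^ ε := by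
          push_cast
          rw [Real.mul_rpow (by norm_num) (Nat.cast_nonneg _)]
          field_simp
        rw [h4]
        exact h2.trans h3

end Pool.Agent.Results.MP_244be3_lc.BooleanForm
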