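import Pool.Agent.MP_244be3_lc.Bounds
import Pool.Agent.MP_244be3_lc.Upper

set_option autoImplicit false

namespace Pool.Agent.Results.MP_244be3_lc.FewWeights

open Finset Pool.Agent.MP_244be3_lc

/-- Exponential depth separation for networks with bounded or with few different weights.
The function `ipSign k` on `ℝ^{2k}` is computed by a network with three hidden layers, `4k` neurons
and all weights in `{-1, 0, 1}`. For every network with at most two hidden layers that computes it
and is `Tame r M`, with `S` hidden neurons, `2^k ≤ (4 (k + 2) (r + 3)! (S M)^{r + 2})^2`. -/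
theorem result (k : ℕ) (hk : 1 ≤ k) :
    (∃ N : Net (k + k), N.depth = 3 ∧ N.size = 4 * k ∧
      (∀ i j l, N.W i j l = 0 ∨ N.W i j l = 1) ∧ (∀ j, N.a j = 1 ∨ N.a j = -1) ∧
      ∀ x, N.eval x = ipSign k x) ∧
    ∀ r M : ℕ, 1 ≤ r → 1 ≤ M → ∀ N : Net (k + k), N.depth ≤ 2 →
      (∀ x, N.eval x = ipSign k x) → Tame r M N →
      (2 : ℝ) ^ k ≤ (4 * (k + 2) * ((r + 3).factorial * ((N.size : ℝ) * M) ^ (r + 2))) ^ 2 := by
  refine ⟨⟨upNet k, rfl, up_size k, up_W k, up_a k, up_eval k⟩, ?_⟩
  intro r M hr hM N hd hN htame
  have h0 := depth_ne_zero hk N hN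
  have hd' : N.depth = 1 ∨ N.depth = 2 := by omega
  have hM' : (1 : ℝ) ≤ M := by exact_mod_cast hM
  have h2k : (0 : ℝ) < 2 ^ k := by positivity
  -- bounded output weights
  have hfirst : ∀ m : ℕ, m ≤ N.size → (∀ j < m, |N.a j| ≤ M) →
      (∀ A : ℝ, ∑ j ∈ range m, |N.a j| ≤ A → (2 : ℝ) ^ k ≤ (4 * (k + 2) * A) ^ 2) →
      (2 : ℝ) ^ k ≤ (4 * (k + 2) * ((r + 3).factorial * ((N.size : ℝ) * M) ^ (r + 2))) ^ 2 := by
    intro m hm ha hb
    have hsum : ∑ j ∈ range m, |N.a j| ≤ (N.size : ℝ) * M := by
      calc ∑ j ∈ range m, |N.a j| ≤ ∑ j ∈ range m, (M : ℝ) :=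
            Finset.sum_le_sum fun j hj => ha j (mem_range.1 hj)
        _ = m * M := by simp
        _ ≤ (N.size : ℝ) * M := by
            have : (m : ℝ) ≤ N.size := by exact_mod_cast hm
            gcongr
    have h := hb _ hsum
    rcases Nat.eq_zero_or_pos N.size with hz | hpos
    · rw [hz] at h
      norm_num at h
      linarith
    · have hS : (1 : ℝ) ≤ N.size := by exact_mod_cast hpos
      have hy : (1 : ℝ) ≤ (N.size : ℝ) * M := by nlinarith
      exact h.trans (first_le (by linarith) le_rfl hy)
  rcases hd' with h1 | h2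
  · have hsize : N.size = N.width 1 := by
      unfold Net.size
      rw [h1]
      simp
    rcases htame with ha | hq | hs
    · rw [h1] at ha
      obtain ⟨c⟩ := comb_one hk N h1 hN True 1 one_pos
      exact hfirst (N.width 1) hsize.ge ha fun A hA => weight_bound hk c hA
    · obtain ⟨c⟩ := comb_one hk N h1 hN True 1 one_pos
      rw [h1] at hq
      rw [hsize]
      exact quant_bound hk c hM hq
    · obtain ⟨c⟩ := comb_one hk N h1 hN True r hr
      have h := rank_bound c trivial
      rcases Nat.eq_zero_or_pos (N.width 1) with hz | hpos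
      · rw [hz] at h
        have : 2 ^ 1 ≤ 2 ^ k := Nat.pow_le_pow_right (by norm_num) hk
        omega
      · rw [hsize]
        apply third_le hM hpos
        refine h.trans ?_
        have : 1 ≤ N.width 1 * M := Nat.one_le_iff_ne_zero.2 (by positivity)
        gcongr
  · have hsize : N.size = N.width 1 + N.width 2 := by
      unfold Net.size
      rw [h2]
      have : Icc 1 2 = ({1, 2} : Finset ℕ) := by decide
      rw [this, Finset.sum_insert (by decide), Finset.sum_singleton]
    rcases htame with ha | hq | hs
    · rw [h2] at ha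
      obtain ⟨c⟩ := comb_two hk N h2 hN 0 0
      exact hfirst (N.width 2) (by omega) ha fun A hA => weight_bound hk c hA
    · obtain ⟨c⟩ := comb_two hk N h2 hN 0 0
      rw [h2] at hq
      refine (quant_bound hk c hM hq).trans ?_
      have : (N.width 2 : ℝ) ≤ N.size := by
        have : N.width 2 ≤ N.size := by omega
        exact_mod_cast this
      gcongr
    · obtain ⟨c⟩ := comb_two hk N h2 hN r M
      have h := rank_bound c hs
      rcases Nat.eq_zero_or_pos N.size with hz | hpos
      · have hw : N.width 2 = 0 := by omega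
        rw [hw] at h
        have : 2 ^ 1 ≤ 2 ^ k := Nat.pow_le_pow_right (by norm_num) hk
        omega
      · apply third_le hM hpos
        refine h.trans ?_
        have e1 : N.width 2 ≤ N.size := by omega
        have e2 : N.width 1 * M ≤ N.size * M := Nat.mul_le_mul_right M (by omega)
        gcongr

end Pool.Agent.Results.MP_244be3_lc.FewWeights
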