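import Pool.Agent.MP_244be3_lc.WN.Choice

set_option autoImplicit false

namespace Pool.Agent.Results.MP_244be3_lc.WildNeurons

open Finset Filter Pool.Agent.MP_244be3_lc Pool.Agent.MP_244be3_lc.WN

theorem sq_le_two_pow (i : ℕ) (hi : 4 ≤ i) : i * i ≤ 2 ^ i := by
  induction i, hi using Nat.le_induction with
  | base => norm_num
  | succ n hn ih =>
    rw [pow_succ]
    nlinarith

/-- The case `ε ≤ 1`. -/
theorem aux (ε : ℝ) (hε : 0 < ε) (hε1 : ε ≤ 1) :
    ∃ δ : ℝ, 0 < δ ∧ ∃ (n : ℕ → ℕ) (f : (j : ℕ) → (Fin (n j) → ℝ) → ℝ) (s : ℕ → ℕ),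
      Tendsto s atTop atTop ∧ (∀ j, 1 ≤ s j) ∧ ∀ j,
        (∃ N : Net (n j), N.depth = 4 ∧ N.size = s j ∧ ∀ x, N.eval x = f j x) ∧
        ∀ N : Net (n j), N.depth ≤ 2 → (∀ x, |N.eval x - f j x| ≤ 1 / (s j : ℝ) ^ 2) →
          (s j : ℝ) ^ (5 / 2 - ε) ≤ N.size ∧
          ((2 : ℝ) ^ ((s j : ℝ) ^ δ) < N.size ∨
            ∀ r M d : ℕ, (r : ℝ) ≤ (s j : ℝ) ^ δ → (M : ℝ) ≤ 2 ^ ((s j : ℝ) ^ δ) →
              (d : ℝ) ≤ (s j : ℝ) ^ (1 - ε) →
                (s j : ℝ) ^ (5 / 2 - ε) ≤ #(wild N (2 ^ ((s j : ℝ) ^ δ)) r M d)) := by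
  obtain ⟨b, hb⟩ := exists_nat_gt (11 / ε)
  have hb' : 11 ≤ ε * (b + 5) := by
    rw [div_lt_iff₀ hε] at hb
    nlinarith
  have hc : (0 : ℝ) < ((4 * (b + 5) : ℕ) : ℝ) := by positivity
  refine ⟨(((4 * (b + 5) : ℕ) : ℝ))⁻¹, inv_pos.2 hc, ?_⟩
  let I : ℕ → ℕ := fun j => 10 * b + 50 + j
  have hI1 : ∀ j, 8 * b + 44 ≤ 2 ^ I j := fun j => by
    have : I j < 2 ^ I j := Nat.lt_two_pow_self
    simp only [I] at this ⊢
    omega
  have hI2 : ∀ j, (10 * b + 6) * I j ≤ 2 ^ I j := fun j => by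
    refine le_trans (Nat.mul_le_mul_right _ ?_) (sq_le_two_pow (I j) ?_)
    · simp only [I]; omega
    · simp only [I]; omega
  have hs0 : ∀ j, (2 ^ I j) ^ (4 * (b + 3)) ≤ sz (b + 3) (I j) := fun j => le_sz _ _
  have hs1 : ∀ j, sz (b + 3) (I j) ≤ (2 ^ I j) ^ (4 * (b + 3 + 2)) := fun j =>
    sz_le (by have := hI1 j; omega)
  have hq1 : ∀ j, 1 ≤ 2 ^ I j := fun j => Nat.one_le_two_pow
  have hsone : ∀ j, 1 ≤ sz (b + 3) (I j) := fun j =>
    (Nat.one_le_pow _ _ (hq1 j)).trans (hs0 j)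
  -- real bounds
  have hpow : ∀ j, ∀ y : ℝ, 0 ≤ y →
      (sz (b + 3) (I j) : ℝ) ^ y ≤ ((2 : ℝ) ^ I j) ^ (((4 * (b + 5) : ℕ) : ℝ) * y) := by
    intro j y hy
    rw [Real.rpow_mul (by positivity), Real.rpow_natCast]
    apply Real.rpow_le_rpow (by positivity) _ hy
    exact_mod_cast hs1 j
  have hsδ : ∀ j, (sz (b + 3) (I j) : ℝ) ^ (((4 * (b + 5) : ℕ) : ℝ))⁻¹ ≤ (2 : ℝ) ^ I j := by
    intro j
    have h := hpow j _ (inv_pos.2 hc).le
    rwa [mul_inv_cancel₀ hc.ne', Real.rpow_one] at h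
  have hq1' : ∀ j, (1 : ℝ) ≤ (2 : ℝ) ^ I j := fun j => one_le_pow₀ (by norm_num)
  have hW0 : ∀ j, (sz (b + 3) (I j) : ℝ) ^ (5 / 2 - ε) ≤ ((2 : ℝ) ^ I j) ^ (10 * b + 6) := by
    intro j
    refine (hpow j _ (by linarith)).trans ?_
    rw [← Real.rpow_natCast ((2 : ℝ) ^ I j) (10 * b + 6)]
    apply Real.rpow_le_rpow_of_exponent_le (hq1' j)
    push_cast
    nlinarith
  have hW : ∀ j, ⌊(sz (b + 3) (I j) : ℝ) ^ (5 / 2 - ε)⌋₊ ≤ (2 ^ I j) ^ (10 * b + 6) := by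
    intro j
    have h := Nat.floor_le_floor (hW0 j)
    refine h.trans (le_of_eq ?_)
    have : ((2 : ℝ) ^ I j) ^ (10 * b + 6) = (((2 ^ I j) ^ (10 * b + 6) : ℕ) : ℝ) := by push_cast; rfl
    rw [this, Nat.floor_natCast]
  have hd0 : ∀ j, (sz (b + 3) (I j) : ℝ) ^ (1 - ε) ≤ ((2 : ℝ) ^ I j) ^ (4 * b + 11) := by
    intro j
    refine (hpow j _ (by linarith)).trans ?_
    rw [← Real.rpow_natCast ((2 : ℝ) ^ I j) (4 * b + 11)]
    apply Real.rpow_le_rpow_of_exponent_le (hq1' j)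
    push_cast
    nlinarith
  choose h hh using fun j => at_params (hI1 j) (hW j)
  refine ⟨fun j => Fintype.card (Blk ((2 ^ I j) ^ 4) (4 * (b + 3) * I j) ×
      Fin (4 ^ (2 * (b + 3) * I j))),
    fun j x => fn ((2 ^ I j) ^ 4) (4 * (b + 3) * I j) (4 ^ (2 * (b + 3) * I j)) (h j)
      (fun l => x (Fintype.equivFin _ l)), fun j => sz (b + 3) (I j), ?_, hsone, ?_⟩
  · refine tendsto_atTop_mono (f := fun j : ℕ => j) (fun j => ?_) tendsto_id
    refine le_trans ?_ (hs0 j)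
    have h1 : I j < 2 ^ I j := Nat.lt_two_pow_self
    have h2 : 2 ^ I j ≤ (2 ^ I j) ^ (4 * (b + 3)) := Nat.le_self_pow (by omega) _
    have h3 : j ≤ I j := by simp only [I]; omega
    omega
  · intro j
    constructor
    · obtain ⟨N, hN1, hN2, hN3⟩ := upper ((2 ^ I j) ^ 4) (4 * (b + 3) * I j)
        (4 ^ (2 * (b + 3) * I j)) (h j)
      refine ⟨N, hN1, ?_, ?_⟩
      · rw [hN2]; rfl
      · intro x
        have h1 := hN3 (fun l => x (Fintype.equivFin _ l))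
        simp only [Equiv.apply_symm_apply] at h1
        exact h1
    · intro N hd hN
      have hN' : ∀ x : Blk ((2 ^ I j) ^ 4) (4 * (b + 3) * I j) × Fin (4 ^ (2 * (b + 3) * I j)) → ℝ,
          |N.eval (fun l => x ((Fintype.equivFin _).symm l)) -
            fn ((2 ^ I j) ^ 4) (4 * (b + 3) * I j) (4 ^ (2 * (b + 3) * I j)) (h j) x| ≤
              1 / (sz (b + 3) (I j) : ℝ) ^ 2 := by
        intro x
        have h1 := hN (fun l => x ((Fintype.equivFin _).symm l))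
        simp only [Equiv.symm_apply_apply] at h1
        exact h1
      have key := hh j N hd hN'
      constructor
      · by_cases hsz : N.size ≤ 2 ^ (2 ^ I j)
        · have h1 := (key hsz).trans_le (wild_card_le _ _ _ _ _)
          have h2 := Nat.lt_floor_add_one ((sz (b + 3) (I j) : ℝ) ^ (5 / 2 - ε))
          have h3 : ((⌊(sz (b + 3) (I j) : ℝ) ^ (5 / 2 - ε)⌋₊ : ℕ) : ℝ) + 1 ≤ N.size := by
            exact_mod_cast h1
          linarith
        · push Not at hsz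
          refine (hW0 j).trans ?_
          have h1 : (2 ^ I j) ^ (10 * b + 6) ≤ 2 ^ (2 ^ I j) := by
            rw [← pow_mul]
            apply Nat.pow_le_pow_right (by norm_num)
            rw [mul_comm]
            exact hI2 j
          exact_mod_cast h1.trans hsz.le
      · by_cases hsz : (N.size : ℝ) ≤ 2 ^ ((sz (b + 3) (I j) : ℝ) ^ (((4 * (b + 5) : ℕ) : ℝ))⁻¹)
        · right
          intro r M d hr hM hd'
          have e1 : (2 : ℝ) ^ ((sz (b + 3) (I j) : ℝ) ^ (((4 * (b + 5) : ℕ) : ℝ))⁻¹) ≤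
              ((2 ^ (2 ^ I j) : ℕ) : ℝ) := by
            calc (2 : ℝ) ^ ((sz (b + 3) (I j) : ℝ) ^ (((4 * (b + 5) : ℕ) : ℝ))⁻¹) ≤
                  (2 : ℝ) ^ ((2 : ℝ) ^ I j) :=
                  Real.rpow_le_rpow_of_exponent_le (by norm_num) (hsδ j)
              _ = (2 : ℝ) ^ (((2 ^ I j : ℕ) : ℝ)) := by push_cast; rfl
              _ = ((2 ^ (2 ^ I j) : ℕ) : ℝ) := by rw [Real.rpow_natCast]; push_cast; rfl
          have hsz' : N.size ≤ 2 ^ (2 ^ I j) := by exact_mod_cast hsz.trans e1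
          have hr' : r ≤ 2 ^ I j := by exact_mod_cast hr.trans (hsδ j)
          have hM' : M ≤ 2 ^ (2 ^ I j) := by exact_mod_cast hM.trans e1
          have hd'' : d ≤ 4 ^ (2 * (b + 3) * I j) / 2 := by
            rw [Nat.le_div_iff_mul_le (by norm_num), four_pow]
            have h1 : d ≤ (2 ^ I j) ^ (4 * b + 11) := by exact_mod_cast hd'.trans (hd0 j)
            have h2 : 2 ≤ 2 ^ I j := by have := hI1 j; omega
            calc d * 2 ≤ (2 ^ I j) ^ (4 * b + 11) * 2 ^ I j := Nat.mul_le_mul h1 h2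
              _ = (2 ^ I j) ^ (4 * (b + 3)) := by
                  rw [← pow_succ, show 4 * b + 11 + 1 = 4 * (b + 3) by ring]
          have h1 := key hsz'
          have h2 : wild N (2 ^ (2 ^ I j)) (2 ^ I j) (2 ^ (2 ^ I j))
              (4 ^ (2 * (b + 3) * I j) / 2) ⊆
              wild N (2 ^ ((sz (b + 3) (I j) : ℝ) ^ (((4 * (b + 5) : ℕ) : ℝ))⁻¹)) r M d := by
            apply wild_mono N _ hr' hM' hd''
            refine e1.trans (le_of_eq ?_)
            push_cast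
            rfl
          have h3 := h1.trans_le (Finset.card_le_card h2)
          have h4 := Nat.lt_floor_add_one ((sz (b + 3) (I j) : ℝ) ^ (5 / 2 - ε))
          have h5 : ((⌊(sz (b + 3) (I j) : ℝ) ^ (5 / 2 - ε)⌋₊ : ℕ) : ℝ) + 1 ≤
              #(wild N (2 ^ ((sz (b + 3) (I j) : ℝ) ^ (((4 * (b + 5) : ℕ) : ℝ))⁻¹)) r M d) := by
            exact_mod_cast h3
          linarith
        · left
          exact not_le.1 hsz

/-- Exponential gap between four and two hidden layers for all networks with few wild neurons,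
and the unconditional gap `s ^ (5 / 2 - ε)`. For every `ε > 0` there are `δ > 0`, functions `f j` on
`ℝ ^ (n j)` and `s j → ∞` such that `f j` is computed by a network with four hidden layers and `s j`
neurons, while for every network `N` with at most two hidden layers that computes `f j` up to an
error of at most `1 / (s j) ^ 2` (for instance exactly)
* `N` has at least `(s j) ^ (5 / 2 - ε)` neurons, and
* `N` has more than `2 ^ ((s j) ^ δ)` neurons or at least `(s j) ^ (5 / 2 - ε)` wild neurons: neurons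
  of the second hidden layer whose output weight is larger than `2 ^ ((s j) ^ δ)` in absolute value
  and whose incoming weights are not, with at most `d ≤ (s j) ^ (1 - ε)` exceptions, integer
  combinations with coefficients at most `M ≤ 2 ^ ((s j) ^ δ)` of `r ≤ (s j) ^ δ` real numbers. -/
theorem result (ε : ℝ) (hε : 0 < ε) :
    ∃ δ : ℝ, 0 < δ ∧ ∃ (n : ℕ → ℕ) (f : (j : ℕ) → (Fin (n j) → ℝ) → ℝ) (s : ℕ → ℕ),
      Tendsto s atTop atTop ∧ ∀ j,
        (∃ N : Net (n j), N.depth = 4 ∧ N.size = s j ∧ ∀ x, N.eval x = f j x) ∧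
        ∀ N : Net (n j), N.depth ≤ 2 → (∀ x, |N.eval x - f j x| ≤ 1 / (s j : ℝ) ^ 2) →
          (s j : ℝ) ^ (5 / 2 - ε) ≤ N.size ∧
          ((2 : ℝ) ^ ((s j : ℝ) ^ δ) < N.size ∨
            ∀ r M d : ℕ, (r : ℝ) ≤ (s j : ℝ) ^ δ → (M : ℝ) ≤ 2 ^ ((s j : ℝ) ^ δ) →
              (d : ℝ) ≤ (s j : ℝ) ^ (1 - ε) →
                (s j : ℝ) ^ (5 / 2 - ε) ≤ #(wild N (2 ^ ((s j : ℝ) ^ δ)) r M d)) := by
  obtain ⟨δ, hδ, n, f, s, hs, hs1, h⟩ := aux (min ε 1) (lt_min hε one_pos) (min_le_right _ _)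
  refine ⟨δ, hδ, n, f, s, hs, fun j => ⟨(h j).1, fun N hd hN => ?_⟩⟩
  obtain ⟨h1, h2⟩ := (h j).2 N hd hN
  have hsj : (1 : ℝ) ≤ s j := by exact_mod_cast hs1 j
  have e1 : (s j : ℝ) ^ (5 / 2 - ε) ≤ (s j : ℝ) ^ (5 / 2 - min ε 1) :=
    Real.rpow_le_rpow_of_exponent_le hsj (by linarith [min_le_left ε 1])
  have e2 : (s j : ℝ) ^ (1 - ε) ≤ (s j : ℝ) ^ (1 - min ε 1) :=
    Real.rpow_le_rpow_of_exponent_le hsj (by linarith [min_le_left ε 1])
  refine ⟨e1.trans h1, h2.imp id fun h3 r M d hr hM hd' => ?_⟩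
  exact e1.trans (h3 r M d hr hM (hd'.trans e2))

end Pool.Agent.Results.MP_244be3_lc.WildNeurons
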